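import Pool.Agent.H98.Cop3

namespace Pool.Agent.Results.MP_dfa28f_co.Even

/-- The robber's positions so far, most recent first. -/
def hist {V : Type} (r : ℕ → V) : ℕ → List V
  | 0 => []
  | t + 1 => r t :: hist r t

/-- `m` cops win on `G`: a strategy `σ` maps the list of the robber's positions so far to the
positions of the cops (`σ []` is the initial placement); all its moves are legal, and against
every legal walk of the robber some cop moves onto the robber at some time. -/
def CopsWin {V : Type} (G : SimpleGraph V) (m : ℕ) : Prop :=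
  ∃ σ : List V → Fin m → V,
    (∀ x l i, σ (x :: l) i = σ l i ∨ G.Adj (σ l i) (σ (x :: l) i)) ∧
    ∀ r : ℕ → V, (∀ t, r (t + 1) = r t ∨ G.Adj (r t) (r (t + 1))) →
      ∃ t i, σ (hist r (t + 1)) i = r t

/-- The cop number. -/
noncomputable def copNumber {V : Type} (G : SimpleGraph V) : ℕ := sInf {m | CopsWin G m}

/-- No induced path on `k` vertices. -/
def PFree {V : Type} (k : ℕ) (G : SimpleGraph V) : Prop :=
  IsEmpty (SimpleGraph.pathGraph k ↪g G)

open Pool.Agent.H98.Cop Finset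

section
variable {V : Type} [Fintype V] [DecidableEq V] {G : SimpleGraph V} {k j : ℕ}

lemma ext1 (h : Good k j G) (hj : j < Fintype.card V) (C : Finset V) (hC : C.card ≤ j) (r : V)
    (hr : r ∉ C) : ∃ w, w ∉ C ∧ (∀ c ∈ C, ¬ G.Adj w c) ∧ G.Adj w r := by
  obtain ⟨C', h1, h2, h3⟩ := exists_subsuperset_card_eq (s := C) (t := univ.erase r) (n := j)
    (fun x hx => mem_erase.2 ⟨fun e => hr (e ▸ hx), mem_univ _⟩) hC
    (by rw [card_erase_of_mem (mem_univ _), card_univ]; omega)
  obtain ⟨w, a, b, c⟩ := h.2 C' {r, r} h3 ⟨r, r, rfl⟩ (by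
    rw [disjoint_left]; intro x hx hx'
    have := (mem_erase.1 (h2 hx)).1
    simp_all)
  exact ⟨w, fun hw => a (h1 hw), fun x hx => b x (h1 hx), c r (by simp)⟩

lemma not_win (h : Good k j G) (hj : j < Fintype.card V) {m : ℕ} (hm : m ≤ j) : ¬ CopsWin G m := by
  rintro ⟨σ, hσ, hw⟩
  have nx : ∀ (c : Fin m → V) (r : V), ∃ w, (∀ i, c i ≠ r) →
      (∀ i, c i ≠ w ∧ ¬ G.Adj (c i) w) ∧ G.Adj r w := by
    intro c r
    by_cases hc : ∀ i, c i ≠ r
    · obtain ⟨w, a, b, d⟩ := ext1 h hj (univ.image c) (card_image_le.trans (by simpa using hm)) r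
        (by simpa using hc)
      exact ⟨w, fun _ => ⟨fun i => ⟨fun e => a (e ▸ mem_image_of_mem _ (mem_univ i)),
        fun e => b _ (mem_image_of_mem _ (mem_univ i)) e.symm⟩, d.symm⟩⟩
    · exact ⟨r, fun h => absurd h hc⟩
  choose nx hnx using nx
  obtain ⟨r0, -, hr0⟩ := exists_mem_notMem_of_card_lt_card (s := univ.image (σ []))
    (t := (univ : Finset V)) (lt_of_le_of_lt (card_image_le.trans (by simpa using hm)) hj)
  have hr0' : ∀ i, σ [] i ≠ r0 := by simpa using hr0
  let st : ℕ → List V × V := fun t => Nat.rec ([], nx (σ []) r0)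
    (fun _ p => (p.2 :: p.1, nx (σ (p.2 :: p.1)) p.2)) t
  have hh : ∀ t, hist (fun t => (st t).2) t = (st t).1 := by
    intro t
    induction t with
    | zero => rfl
    | succ t ih => rw [hist, ih]
  have step : ∀ t, (∀ i, σ (st t).1 i ≠ (st t).2 ∧ ¬ G.Adj (σ (st t).1 i) (st t).2) →
      ∀ i, σ ((st t).2 :: (st t).1) i ≠ (st t).2 := by
    intro t ht i e
    rcases hσ (st t).2 (st t).1 i with h | h
    · exact (ht i).1 (h.symm.trans e)
    · exact (ht i).2 (e ▸ h)
  have safe : ∀ t i, σ (st t).1 i ≠ (st t).2 ∧ ¬ G.Adj (σ (st t).1 i) (st t).2 := by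
    intro t
    induction t with
    | zero => exact (hnx _ _ hr0').1
    | succ t ih => exact (hnx _ _ (step t ih)).1
  obtain ⟨t, i, hi⟩ := hw (fun t => (st t).2) fun t => Or.inr (hnx _ _ (step t (safe t))).2
  rw [hist, hh] at hi
  exact step t (safe t) i hi

lemma win_all (G : SimpleGraph V) : CopsWin G (Fintype.card V) :=
  ⟨fun _ => (Fintype.equivFin V).symm, fun _ _ _ => Or.inl rfl,
    fun r _ => ⟨0, Fintype.equivFin V (r 0), by simp⟩⟩

end

theorem result (k : ℕ) (hk : 6 ≤ k) (he : Even k) :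
    ∃ (V : Type) (_ : Finite V) (G : SimpleGraph V),
      G.Connected ∧ PFree k G ∧ (k - 1) / 2 < copNumber G := by
  obtain ⟨j, rfl⟩ : ∃ j, k = 2 * j + 2 := by obtain ⟨a, ha⟩ := he; exact ⟨a - 1, by omega⟩
  obtain ⟨T, N, G, hn, hG⟩ := exists_good j (by omega)
  have hc : Fintype.card (Fin T × Fin N) = T * N := by simp
  refine ⟨Fin T × Fin N, inferInstance, G, ?_, ⟨fun φ => ?_⟩, ?_⟩
  · haveI : Nonempty (Fin T × Fin N) := Fintype.card_pos_iff.1 (by omega)
    refine ⟨fun u v => ?_⟩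
    obtain ⟨C, h2, h3⟩ := exists_subset_card_eq (s := univ \ {u, v}) (n := j) (by
      have := le_card_sdiff {u, v} (univ : Finset (Fin T × Fin N))
      have := card_le_two (a := u) (b := v)
      rw [card_univ] at *; omega)
    obtain ⟨w, -, -, h⟩ := hG.2 C {u, v} h3 ⟨u, v, rfl⟩
      (disjoint_left.2 fun x hx => (Finset.mem_sdiff.1 (h2 hx)).2)
    exact (h u (by simp)).symm.reachable.trans (h v (by simp)).reachable
  · obtain ⟨p, hp, ha⟩ := hG.1 φ φ.injective
    have h1 := (mem_filter.1 hp).2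
    have h2 := SimpleGraph.pathGraph_adj.1 (φ.map_adj_iff.1 ha)
    omega
  · have hm := Nat.sInf_mem (s := {m | CopsWin G m}) ⟨_, win_all G⟩
    by_contra hn'
    exact not_win hG (by omega) (by unfold copNumber at hn'; omega) hm

end Pool.Agent.Results.MP_dfa28f_co.Even
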